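import Pool.Agent.UMG.StmtsB

/-!
# MTX: the recursion for the numbers of the matchings
-/

set_option autoImplicit false

namespace Pool.Agent.UMG.B.H67
open Finset Pool.Agent.UMG Pool.Agent.UMG.B

theorem F_rec (j c : ℕ) : F j (c + 1) = sb j c + c * (j * F j (c - 1)) := by
  rcases c with _ | c
  · simp [F, sb]
  · simp only [F, sb, Nat.add_sub_cancel, Nat.mul_assoc]

theorem eqv1 (j c : ℕ) : ∃ e : {_x : Fin (F j c) // 2 ∣ j} ≃ Fin (sb j c),
    ∀ x, (e x : ℕ) = (x.1 : ℕ) := by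
  by_cases h : 2 ∣ j
  · have hs : F j c = sb j c := by simp [sb, h]
    refine ⟨⟨fun x => ⟨x.1, by have := x.1.2; omega⟩, fun y => ⟨⟨y, by have := y.2; omega⟩, h⟩,
      fun x => rfl, fun y => rfl⟩, fun x => rfl⟩
  · have hs : sb j c = 0 := by simp [sb, h]
    have h1 : IsEmpty {_x : Fin (F j c) // 2 ∣ j} := ⟨fun x => h x.2⟩
    have h2 : IsEmpty (Fin (sb j c)) := ⟨fun y => by have := y.2; omega⟩
    exact ⟨Equiv.equivOfIsEmpty _ _, fun x => absurd x.2 h⟩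

theorem eqv2 (c j N : ℕ) : ∃ e : (Σ _p : Fin c, Fin j × Fin N) ≃ Fin (c * (j * N)),
    ∀ z, (e z : ℕ) = ((z.2.2 : ℕ) + N * (z.2.1 : ℕ)) + (j * N) * (z.1 : ℕ) := by
  refine ⟨(Equiv.sigmaEquivProd (Fin c) (Fin j × Fin N)).trans
    ((Equiv.prodCongr (Equiv.refl _) finProdFinEquiv).trans finProdFinEquiv), fun z => ?_⟩
  simp [finProdFinEquiv]

theorem eqv (j c : ℕ) :
    ∃ e : ({_x : Fin (F j c) // 2 ∣ j} ⊕ (Σ _p : Fin c, Fin j × Fin (F j (c - 1)))) ≃
      Fin (F j (c + 1)), (∀ x, (e (Sum.inl x) : ℕ) = (x.1 : ℕ)) ∧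
        ∀ z, (e (Sum.inr z) : ℕ) = sb j c +
          (((z.2.2 : ℕ) + F j (c - 1) * (z.2.1 : ℕ)) + (j * F j (c - 1)) * (z.1 : ℕ)) := by
  obtain ⟨e1, h1⟩ := eqv1 j c
  obtain ⟨e2, h2⟩ := eqv2 c j (F j (c - 1))
  refine ⟨((Equiv.sumCongr e1 e2).trans finSumFinEquiv).trans (finCongr (F_rec j c).symm),
    fun x => ?_, fun z => ?_⟩
  · simp [h1]
  · simp [h2]

theorem mt_self {j : ℕ} {b : ℕ × ℕ × ℕ} {L : List (ℕ × ℕ × ℕ)} {x : ℕ} (h : x < sb j L.length) :
    mt j (b :: L) x = selfE j b ++ mt j L x := by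
  rw [mt, if_pos h]

theorem mt_pair {j : ℕ} {b : ℕ × ℕ × ℕ} {L : List (ℕ × ℕ × ℕ)} {x : ℕ}
    (h : ¬ x < sb j L.length) :
    mt j (b :: L) x = pairE j (rI j L.length x) b (L.getD (pI j L.length x) (0, 1, 1)) ++
      mt j (L.eraseIdx (pI j L.length x)) (xI j L.length x) := by
  rw [mt, if_neg h]

theorem arith (N j p r x : ℕ) (hr : r < j) (hx : x < N) :
    ((x + N * r) + (j * N) * p) / (j * N) = p ∧ ((x + N * r) + (j * N) * p) / N % j = r ∧
      ((x + N * r) + (j * N) * p) % N = x := by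
  have hN : 0 < N := lt_of_le_of_lt (Nat.zero_le _) hx
  have hj : 0 < j := lt_of_le_of_lt (Nat.zero_le _) hr
  have h1 : x + N * r < j * N := by
    calc x + N * r < N + N * r := by omega
      _ = N * (r + 1) := by ring
      _ ≤ N * j := Nat.mul_le_mul_left _ hr
      _ = j * N := Nat.mul_comm _ _
  have h2 : ((x + N * r) + (j * N) * p) / N = r + j * p := by
    have : (x + N * r) + (j * N) * p = x + N * (r + j * p) := by ring
    rw [this, Nat.add_mul_div_left _ _ hN, Nat.div_eq_of_lt hx, Nat.zero_add]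
  refine ⟨?_, ?_, ?_⟩
  · rw [Nat.add_mul_div_left _ _ (Nat.mul_pos hj hN), Nat.div_eq_of_lt h1, Nat.zero_add]
  · rw [h2, Nat.add_mul_mod_self_left, Nat.mod_eq_of_lt hr]
  · have : (x + N * r) + (j * N) * p = x + N * (r + j * p) := by ring
    rw [this, Nat.add_mul_mod_self_left, Nat.mod_eq_of_lt hx]

theorem mtx : MtxStmt := by
  intro j b L
  obtain ⟨e, h1, h2⟩ := eqv j L.length
  refine EqD.symm ⟨e, ?_⟩
  rintro (x | z)
  · show Qc (mt j (b :: L) (e (Sum.inl x) : ℕ)) = Qc (selfE j b) + Qc (mt j L x.1)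
    rw [h1]
    have hx : (x.1 : ℕ) < sb j L.length := by
      have hs : sb j L.length = F j L.length := by simp [sb, x.2]
      rw [hs]
      exact x.1.2
    rw [mt_self hx, Qc_append]
  · show Qc (mt j (b :: L) (e (Sum.inr z) : ℕ)) =
      Qc (pairE j z.2.1 b (L.get z.1)) + Qc (mt j (L.eraseIdx z.1) z.2.2)
    obtain ⟨w, hw⟩ : ∃ w, w = (((z.2.2 : ℕ) + F j (L.length - 1) * (z.2.1 : ℕ)) +
      (j * F j (L.length - 1)) * (z.1 : ℕ)) := ⟨_, rfl⟩
    obtain ⟨a1, a2, a3⟩ := arith (F j (L.length - 1)) j (z.1 : ℕ) (z.2.1 : ℕ) (z.2.2 : ℕ)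
      z.2.1.2 z.2.2.2
    rw [← hw] at a1 a2 a3
    rw [h2, ← hw, mt_pair (by omega), Qc_append]
    have e1 : pI j L.length (sb j L.length + w) = z.1 := by
      unfold pI; rw [Nat.add_sub_cancel_left]; exact a1
    have e2 : rI j L.length (sb j L.length + w) = z.2.1 := by
      unfold rI; rw [Nat.add_sub_cancel_left]; exact a2
    have e3 : xI j L.length (sb j L.length + w) = z.2.2 := by
      unfold xI; rw [Nat.add_sub_cancel_left]; exact a3
    rw [e1, e2, e3]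
    have e4 : L.getD (z.1 : ℕ) (0, 1, 1) = L.get z.1 := by
      rw [List.getD_eq_getElem _ _ z.1.2, List.get_eq_getElem]
    rw [e4]

end Pool.Agent.UMG.B.H67
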