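import Pool.Agent.UMG.StmtsA

/-!
# UMG row EST (helper67): the two exponents
-/

set_option autoImplicit false

namespace Pool.Agent.UMG.A.H67

open Finset Pool.Agent.UMG

theorem est (hsec : SecStmt) (hfir : FirStmt) : EstStmt := by
  intro η K h0 h1 h2
  obtain ⟨C1, M1, hs⟩ := hsec η K h0 h1
  obtain ⟨C2, M2, hf⟩ := hfir η K h0 h1 h2
  refine ⟨max C1 0 + max C2 0, max (max M1 M2) 1, by positivity, ?_⟩
  intro d x hG hM hF
  have m1 : M1 ≤ d.sum := (le_max_left _ _).trans ((le_max_left _ _).trans hM)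
  have m2 : M2 ≤ d.sum := (le_max_right _ _).trans ((le_max_left _ _).trans hM)
  have m3 : 1 ≤ d.sum := (le_max_right _ _).trans hM
  obtain ⟨a1, a2⟩ := hs d x hG m1 hF
  obtain ⟨b1, b2⟩ := hf d x hG m2 hF
  have c1 : C1 ≤ max C1 0 := le_max_left _ _
  have c2 : C2 ≤ max C2 0 := le_max_left _ _
  have c3 : 0 ≤ max C1 0 := le_max_right _ _
  have hM1 : (1 : ℝ) ≤ (d.sum : ℝ) := by exact_mod_cast m3
  have hsq : Real.sqrt (d.sum : ℝ) ≤ (d.sum : ℝ) ^ (1 - η) := by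
    rw [Real.sqrt_eq_rpow]
    exact Real.rpow_le_rpow_of_exponent_le hM1 (by linarith)
  have hp : 0 ≤ (d.sum : ℝ) ^ (1 - η) := by positivity
  constructor
  · unfold AA
    linarith
  · unfold AB
    have e1 : C1 * Real.sqrt (d.sum : ℝ) ≤ max C1 0 * (d.sum : ℝ) ^ (1 - η) :=
      (mul_le_mul_of_nonneg_right c1 (Real.sqrt_nonneg _)).trans (mul_le_mul_of_nonneg_left hsq c3)
    have e2 : C2 * (d.sum : ℝ) ^ (1 - η) ≤ max C2 0 * (d.sum : ℝ) ^ (1 - η) :=
      mul_le_mul_of_nonneg_right c2 hp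
    rw [add_mul]
    linarith

end Pool.Agent.UMG.A.H67
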