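import Pool.Agent.UMG.StmtsA

/-!
# UMG row GPA (helper67): the good part
-/

set_option autoImplicit false

namespace Pool.Agent.UMG.A.H67

open Finset Pool.Agent.UMG

theorem Fr_nonneg (j c : ℕ) : 0 ≤ Fr j c := by
  unfold Fr
  positivity

theorem Fh_zero (M j : ℕ) : Fh M j 0 = 1 := by
  unfold Fh
  simp

theorem Fh_nonneg (hsq : SqmStmt) (M j c : ℕ) : 0 ≤ Fh M j c := by
  unfold Fh
  exact Finset.prod_nonneg fun i _ => ((hsq M j (i + 1) (i + 1) le_rfl).1).le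

theorem C_le {K : ℕ} {d : List ℕ} (hpho : PhoStmt) (hK : 6 ≤ K) {C : ℕ →₀ ℕ}
    (hC : C ∈ (PS K Xv d).support) (j : ℕ) : C (j + 1) ≤ d.sum := by
  obtain ⟨h1, _, _⟩ := (hpho K d hK).2 C hC
  by_cases h : (j + 1) ∈ C.support
  · have h2 : (j + 1) * C (j + 1) ≤ C.sum fun i c => i * c := by
      unfold Finsupp.sum
      exact Finset.single_le_sum (f := fun i => i * C i) (fun _ _ => Nat.zero_le _) h
    rw [h1] at h2
    have h3 : 1 * C (j + 1) ≤ (j + 1) * C (j + 1) := Nat.mul_le_mul_right _ (by omega)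
    omega
  · rw [Finsupp.notMem_support_iff.1 h]
    exact Nat.zero_le _

theorem term_le (htan : TanStmt) (hsq : SqmStmt) (hpho : PhoStmt) {K : ℕ} {d : List ℕ}
    (hK : 6 ≤ K) {C : ℕ →₀ ℕ} (hC : C ∈ (PS K Xv d).support) :
    ∏ j ∈ range (K + d.sum), G d.sum K (j + 1) (C (j + 1)) ≤
      ((d.sum : ℝ) + 1) ^ K * ∏ j ∈ range (K + d.sum), Fh d.sum (j + 1) (C (j + 1)) := by
  obtain ⟨M, hM⟩ : ∃ M, M = d.sum := ⟨_, rfl⟩
  have hCM : ∀ j, C (j + 1) ≤ M := fun j => by rw [hM]; exact C_le hpho hK hC j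
  have hz : ∀ i, K < i → C i = 0 := ((hpho K d hK).2 C hC).2.2
  rw [← hM, Finset.prod_range_add, Finset.prod_range_add]
  have h1 : ∏ j ∈ range M, G M K (K + j + 1) (C (K + j + 1)) = 1 := by
    apply Finset.prod_eq_one
    intro j _
    rw [hz _ (by omega)]
    unfold G
    rw [if_neg (by omega), pow_zero]
  have h2 : ∏ j ∈ range M, Fh M (K + j + 1) (C (K + j + 1)) = 1 := by
    apply Finset.prod_eq_one
    intro j _
    rw [hz _ (by omega), Fh_zero]
  rw [h1, h2, mul_one, mul_one]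
  have h3 : ((M : ℝ) + 1) ^ K * ∏ j ∈ range K, Fh M (j + 1) (C (j + 1)) =
      ∏ j ∈ range K, (((M : ℝ) + 1) * Fh M (j + 1) (C (j + 1))) := by
    rw [Finset.prod_mul_distrib, Finset.prod_const, Finset.card_range]
  rw [h3]
  apply Finset.prod_le_prod
  · intro j hj
    rw [Finset.mem_range] at hj
    unfold G
    rw [if_pos (by omega)]
    exact (Fh_nonneg hsq M _ _).trans (htan M (j + 1) _ (hCM j)).1
  · intro j hj
    rw [Finset.mem_range] at hj
    unfold G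
    rw [if_pos (by omega)]
    exact (htan M (j + 1) _ (hCM j)).2

theorem phi_ps_le {K : ℕ} {d : List ℕ} (hpnn : PnnStmt) (J : ℕ) :
    Phi J Fr (PS K Xv d) ≤ Phi J Fr (PP Xv d) := by
  unfold Phi
  have hP : ∀ C : ℕ →₀ ℕ, 0 ≤ ∏ j ∈ range J, Fr (j + 1) (C (j + 1)) :=
    fun C => Finset.prod_nonneg fun j _ => Fr_nonneg _ _
  have hsub : (PS K Xv d).support ⊆ (PP Xv d).support := by
    intro C hC
    rw [MvPolynomial.mem_support_iff] at hC ⊢
    obtain ⟨h1, h2⟩ := hpnn K d C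
    have h3 : 0 < (PS K Xv d).coeff C := lt_of_le_of_ne h1 (Ne.symm hC)
    exact (lt_of_lt_of_le h3 h2).ne'
  calc ∑ C ∈ (PS K Xv d).support, (PS K Xv d).coeff C * ∏ j ∈ range J, Fr (j + 1) (C (j + 1))
      ≤ ∑ C ∈ (PS K Xv d).support, (PP Xv d).coeff C * ∏ j ∈ range J, Fr (j + 1) (C (j + 1)) :=
        Finset.sum_le_sum fun C _ => mul_le_mul_of_nonneg_right (hpnn K d C).2 (hP C)
    _ ≤ ∑ C ∈ (PP Xv d).support, (PP Xv d).coeff C * ∏ j ∈ range J, Fr (j + 1) (C (j + 1)) :=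
        Finset.sum_le_sum_of_subset_of_nonneg hsub fun C _ _ =>
          mul_nonneg ((hpnn K d C).1.trans (hpnn K d C).2) (hP C)

theorem fg_nonneg (hsq : SqmStmt) (M K g j : ℕ) : 0 ≤ fg M K g j := by
  unfold fg fld
  split
  · exact (hsq _ _ _ _ le_rfl).1.le
  · positivity

theorem gpa (hgrd : GrdStmt) (htan : TanStmt) (hsq : SqmStmt) (hpho : PhoStmt) (hpnn : PnnStmt)
    (hpfx : PfxStmt) (hevp : EvpStmt) (hctb : CtbStmt) : GpaStmt := by
  intro K d T hK hev hT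
  obtain ⟨M, hM⟩ : ∃ M, M = d.sum := ⟨_, rfl⟩
  rw [← hM] at hT hev ⊢
  -- the terms
  have hterm : ∀ g, 0 ≤ ctp M K g * PS K (fg M K g) d := by
    intro g
    apply mul_nonneg
    · unfold ctp
      exact Finset.prod_nonneg fun j _ => (hctb _ _ _).1
    · rw [← (hevp K (fg M K g) d).2, MvPolynomial.eval_eq]
      exact Finset.sum_nonneg fun C _ => mul_nonneg (hpnn K d C).1
        (Finset.prod_nonneg fun i _ => pow_nonneg (fg_nonneg hsq M K g i) _)
  have s1 : ∑ g ∈ T, ctp M K g * PS K (fg M K g) d ≤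
      ∑ g ∈ range ((M + 1) ^ K), ctp M K g * PS K (fg M K g) d :=
    Finset.sum_le_sum_of_subset_of_nonneg hT fun g _ _ => hterm g
  have s2 : ∑ g ∈ range ((M + 1) ^ K), ctp M K g * PS K (fg M K g) d =
      Phi (K + M) (G M K) (PS K Xv d) := by
    rw [hgrd M K (PS K Xv d) (by
      intro C hC
      obtain ⟨_, h1, h2⟩ := (hpho K d hK).2 C hC
      exact ⟨h1, fun i hi => h2 i (by omega)⟩)]
    refine Finset.sum_congr rfl fun g _ => ?_
    rw [(hevp K (fg M K g) d).2]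
  have s3 : Phi (K + M) (G M K) (PS K Xv d) ≤
      ((M : ℝ) + 1) ^ K * Phi (K + M) (Fh M) (PS K Xv d) := by
    unfold Phi
    rw [Finset.mul_sum]
    refine Finset.sum_le_sum fun C hC => ?_
    have h1 := term_le htan hsq hpho hK hC
    rw [← hM] at h1
    calc (PS K Xv d).coeff C * ∏ j ∈ range (K + M), G M K (j + 1) (C (j + 1))
        ≤ (PS K Xv d).coeff C * (((M : ℝ) + 1) ^ K *
          ∏ j ∈ range (K + M), Fh M (j + 1) (C (j + 1))) :=
          mul_le_mul_of_nonneg_left h1 (hpnn K d C).1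
      _ = _ := by ring
  have s4 := hpfx K d hK (by rw [← hM]; exact hev)
  rw [← hM] at s4
  have s5 := phi_ps_le (K := K) (d := d) hpnn (K + M)
  have h0 : 0 ≤ ((M : ℝ) + 1) ^ K := by positivity
  have h00 : 0 ≤ (3 * ((M : ℝ) + 1) ^ K) ^ K * (3 * K * ((M : ℝ) + 1)) ^ K := by positivity
  calc ∑ g ∈ T, ctp M K g * PS K (fg M K g) d
      ≤ Phi (K + M) (G M K) (PS K Xv d) := by rw [← s2]; exact s1
    _ ≤ ((M : ℝ) + 1) ^ K * Phi (K + M) (Fh M) (PS K Xv d) := s3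
    _ ≤ ((M : ℝ) + 1) ^ K * ((3 * ((M : ℝ) + 1) ^ K) ^ K * (3 * K * ((M : ℝ) + 1)) ^ K *
        Phi (K + M) Fr (PS K Xv d)) := mul_le_mul_of_nonneg_left s4 h0
    _ ≤ ((M : ℝ) + 1) ^ K * ((3 * ((M : ℝ) + 1) ^ K) ^ K * (3 * K * ((M : ℝ) + 1)) ^ K *
        Phi (K + M) Fr (PP Xv d)) :=
        mul_le_mul_of_nonneg_left (mul_le_mul_of_nonneg_left s5 h00) h0
    _ = _ := by ring

end Pool.Agent.UMG.A.H67
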