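import Pool.Agent.UMG.StmtsA

/-!
# UMG row NFB (helper67): the bound by the fixed half-edges
-/

set_option autoImplicit false

namespace Pool.Agent.UMG.A.H67

open Finset Pool.Agent.UMG

/-- the sum over `1..n` of a family with the first entry zero -/
theorem sum_Icc_one {n : ℕ} (g : ℕ → ℝ) (h : g 1 = 0) :
    ∑ l ∈ Icc 1 n, g l = ∑ l ∈ Icc 2 n, g l := by
  symm
  apply Finset.sum_subset
  · intro l hl
    rw [Finset.mem_Icc] at hl ⊢
    omega
  · intro l hl hl2
    rw [Finset.mem_Icc] at hl hl2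
    have h1 : l = 1 := by omega
    rw [h1]
    exact h

/-- separation of the first weight -/
theorem first (hcmb : CmbStmt) (hsng : SngStmt) (y : ℕ → ℝ) (n : ℕ) (hy : ∀ l, l ≠ 1 → 0 ≤ y l)
    (u : ℝ) (hu : 0 < u) :
    E (fun l => if l = 1 then u else y l) n ≤
      u ^ n / (n.factorial : ℝ) * Real.exp (∑ l ∈ Icc 2 n, y l * ((n : ℝ) / u) ^ l / l) := by
  have h := hcmb (fun l => if l = 1 then u else 0) (fun l => if l = 1 then 0 else y l) n
    (by intro l; split_ifs <;> linarith)
    (by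
      intro l
      split_ifs with h
      · exact le_rfl
      · exact hy l h)
    (by simpa using hu)
  rw [hsng u n] at h
  have e1 : (fun l => (if l = 1 then u else 0) + (if l = 1 then 0 else y l)) =
      fun l => if l = 1 then u else y l := by
    funext l
    by_cases hl : l = 1
    · rw [if_pos hl, if_pos hl, if_pos hl, add_zero]
    · rw [if_neg hl, if_neg hl, if_neg hl, zero_add]
  have e2 : ∑ l ∈ Icc 1 n, (if l = 1 then 0 else y l) *
      ((n : ℝ) / (if (1 : ℕ) = 1 then u else 0)) ^ l / l =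
      ∑ l ∈ Icc 2 n, y l * ((n : ℝ) / u) ^ l / l := by
    rw [sum_Icc_one _ (by simp)]
    refine Finset.sum_congr rfl fun l hl => ?_
    rw [Finset.mem_Icc] at hl
    rw [if_neg (by omega), if_pos rfl]
  rw [e1, e2] at h
  exact h

theorem hh_nonneg (hmon : MonStmt) (x : ℕ → ℝ) (hx : ∀ i, 0 ≤ x i) (l k : ℕ) : 0 ≤ hh x l k := by
  unfold hh
  exact (hmon _ (fun i => x (l * i)) k fun i _ _ => ⟨hx _, le_rfl⟩).1

theorem nfb (hmon : MonStmt) (hscl : SclStmt) (hcmb : CmbStmt) (hsng : SngStmt) : NfbStmt := by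
  intro x d hx hx1
  obtain ⟨δ, hδ⟩ : ∃ δ : ℕ → ℝ, δ = fun k => ∑ i ∈ Icc 2 k, x i * ((k : ℝ) / x 1) ^ i / i :=
    ⟨_, rfl⟩
  obtain ⟨u, hu⟩ : ∃ u : ℕ → ℝ, u = fun k => x 1 ^ k / (k.factorial : ℝ) := ⟨_, rfl⟩
  have hu0 : ∀ k, 0 < u k := by
    intro k
    rw [hu]
    positivity
  have hδ0 : ∀ k, 0 ≤ δ k := by
    intro k
    rw [hδ]
    refine Finset.sum_nonneg fun i _ => ?_
    have := hx i
    positivity
  -- the first bound
  have s1 : ∀ k, hh x 1 k ≤ Real.exp (δ k) * u k := by
    intro k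
    have h := first hcmb hsng x k (fun l _ => hx l) (x 1) hx1
    have e1 : (fun l => if l = 1 then x 1 else x l) = fun i => x (1 * i) := by
      funext l
      rw [one_mul]
      by_cases hl : l = 1
      · rw [if_pos hl, hl]
      · rw [if_neg hl]
    rw [e1] at h
    rw [hδ, hu]
    unfold hh
    calc E (fun i => x (1 * i)) k ≤ _ := h
      _ = _ := by ring
  have s2 : ∀ k n, aa x k n ≤ Real.exp (n * δ k) * (u k ^ n / (n.factorial : ℝ)) *
      Real.exp (∑ l ∈ Icc 2 n, hh x l k * ((n : ℝ) * (k.factorial : ℝ) / x 1 ^ k) ^ l / l) := by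
    intro k n
    have h := first hcmb hsng (fun l => hh x l k) n (fun l _ => hh_nonneg hmon x hx l k) (u k)
      (hu0 k)
    have e1 : aa x k n ≤ E (fun l => Real.exp (δ k) ^ l *
        (if l = 1 then u k else hh x l k)) n := by
      unfold aa
      refine (hmon _ _ n ?_).2
      intro l hl _
      refine ⟨hh_nonneg hmon x hx l k, ?_⟩
      by_cases h1 : l = 1
      · rw [if_pos h1, h1, pow_one]
        exact s1 k
      · rw [if_neg h1]
        have h2 : 1 ≤ Real.exp (δ k) ^ l := one_le_pow₀ (Real.one_le_exp (hδ0 k))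
        have h3 := mul_le_mul_of_nonneg_right h2 (hh_nonneg hmon x hx l k)
        rw [one_mul] at h3
        exact h3
    rw [hscl] at e1
    have e2 : ∑ l ∈ Icc 2 n, hh x l k * ((n : ℝ) / u k) ^ l / l =
        ∑ l ∈ Icc 2 n, hh x l k * ((n : ℝ) * (k.factorial : ℝ) / x 1 ^ k) ^ l / l := by
      refine Finset.sum_congr rfl fun l _ => ?_
      have h4 : (n : ℝ) / u k = (n : ℝ) * (k.factorial : ℝ) / x 1 ^ k := by
        rw [hu]
        have : x 1 ^ k ≠ 0 := (pow_pos hx1 k).ne'
        field_simp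
      rw [h4]
    rw [e2] at h
    have e3 : Real.exp (δ k) ^ n = Real.exp (n * δ k) := by
      rw [← Real.exp_nat_mul]
    rw [e3] at e1
    calc aa x k n ≤ _ := e1
      _ ≤ Real.exp (n * δ k) * (u k ^ n / (n.factorial : ℝ) *
          Real.exp (∑ l ∈ Icc 2 n, hh x l k * ((n : ℝ) * (k.factorial : ℝ) / x 1 ^ k) ^ l / l)) :=
          mul_le_mul_of_nonneg_left h (Real.exp_pos _).le
      _ = _ := by ring
  -- the product
  have haa : ∀ k n, 0 ≤ aa x k n := by
    intro k n
    unfold aa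
    exact (hmon _ (fun l => hh x l k) n fun l _ _ => ⟨hh_nonneg hmon x hx l k, le_rfl⟩).1
  have s3 : PP x d ≤ ∏ k ∈ d.toFinset, (Real.exp (d.count k * δ k) *
      (u k ^ d.count k / ((d.count k).factorial : ℝ)) *
      Real.exp (∑ l ∈ Icc 2 (d.count k), hh x l k *
        ((d.count k : ℝ) * (k.factorial : ℝ) / x 1 ^ k) ^ l / l)) := by
    unfold PP
    exact Finset.prod_le_prod (fun k _ => haa k _) (fun k _ => s2 k _)
  have s4 : ∏ k ∈ d.toFinset, (u k ^ d.count k / ((d.count k).factorial : ℝ)) =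
      x 1 ^ d.sum / (gam d : ℝ) := by
    have h1 : d.sum = ∑ k ∈ d.toFinset, d.count k * k := by
      have h2 := Finset.sum_list_count d
      simp only [smul_eq_mul] at h2
      exact h2
    have h3 : x 1 ^ d.sum = ∏ k ∈ d.toFinset, x 1 ^ (d.count k * k) := by
      rw [h1]
      exact (Finset.prod_pow_eq_pow_sum _ _ _).symm
    have h4 : (gam d : ℝ) = ∏ k ∈ d.toFinset,
        (((d.count k).factorial : ℝ) * (k.factorial : ℝ) ^ d.count k) := by
      unfold gam
      push_cast
      rfl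
    rw [h3, h4, ← Finset.prod_div_distrib]
    refine Finset.prod_congr rfl fun k _ => ?_
    rw [hu]
    have h5 : (k.factorial : ℝ) ≠ 0 := by positivity
    have h6 : ((d.count k).factorial : ℝ) ≠ 0 := by positivity
    rw [div_pow, ← pow_mul, mul_comm k (d.count k)]
    field_simp
  have s5 : (∏ k ∈ d.toFinset, Real.exp (d.count k * δ k)) *
      (∏ k ∈ d.toFinset, Real.exp (∑ l ∈ Icc 2 (d.count k), hh x l k *
        ((d.count k : ℝ) * (k.factorial : ℝ) / x 1 ^ k) ^ l / l)) = Real.exp (AB x d) := by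
    rw [← Real.exp_sum, ← Real.exp_sum, ← Real.exp_add]
    congr 1
    unfold AB
    congr 1
    rw [← hδ, Finset.sum_list_map_count]
    refine Finset.sum_congr rfl fun k _ => ?_
    rw [nsmul_eq_mul]
  calc PP x d ≤ _ := s3
    _ = (∏ k ∈ d.toFinset, (u k ^ d.count k / ((d.count k).factorial : ℝ))) *
        ((∏ k ∈ d.toFinset, Real.exp (d.count k * δ k)) *
          (∏ k ∈ d.toFinset, Real.exp (∑ l ∈ Icc 2 (d.count k), hh x l k *
            ((d.count k : ℝ) * (k.factorial : ℝ) / x 1 ^ k) ^ l / l))) := by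
        rw [Finset.prod_mul_distrib, Finset.prod_mul_distrib]
        ring
    _ = _ := by rw [s4, s5]

end Pool.Agent.UMG.A.H67
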